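import Pool.Agent.V11294.Lu.Fin

/-!
# MP_953685_nt: Lucas sequences at index `(p-1)/4` with `8 ∣ b`
-/

set_option autoImplicit false

open Pool.Agent.V11294.Lu

namespace Pool.Agent.Results.MP_953685_nt.LucasQuarter

/-- Lucas sequences `U_n = U_n(b, -1)`, `V_n = V_n(b, -1)` (`LU`, `LV`) at the index `(p - 1) / 4`, modulo `p`,
for `8 ∣ b`, in terms of `p = c ^ 2 + d ^ 2 = x ^ 2 + (1 + b ^ 2 / 4) y ^ 2`. -/
theorem result (p : ℕ) [Fact p.Prime] (hp4 : p % 4 = 1) (b : ℤ) (hb : 8 ∣ b)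
    (_hne : b ^ 2 / 4 + 1 ≠ (p : ℤ)) (c d x y : ℤ) (h1 : c ^ 2 + d ^ 2 = (p : ℤ))
    (h2 : x ^ 2 + (1 + b ^ 2 / 4) * y ^ 2 = (p : ℤ)) (hc : c % 4 = 1)
    (hd : OddPartOne d) (hx : OddPartOne x) (hy : OddPartOne y) :
    (4 ∣ x * y → 4 ∣ d ∧
      (LU b ((p - 1) / 4) : ZMod p) = 0 ∧
      (LV b ((p - 1) / 4) : ZMod p) = 2 * (-1) ^ (d / 4 + x * y / 4 + b / 8 * y)) ∧
    (¬ 4 ∣ x * y →
      (LU b ((p - 1) / 4) : ZMod p) =
        -(-1) ^ ((b / 8 - 1) * y) * (((d : ZMod p) * (y : ZMod p)) / ((c : ZMod p) * (x : ZMod p))) ∧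
      (LV b ((p - 1) / 4) : ZMod p) = 0) := by
  obtain ⟨ρ, hρ⟩ := hb
  obtain ⟨bb, hbb⟩ : ∃ bb, bb = 4 * ρ := ⟨_, rfl⟩
  have hb2 : b = 2 * bb := by omega
  have hD : 1 + b ^ 2 / 4 = bb ^ 2 + 1 := by
    have : b ^ 2 = 4 * bb ^ 2 := by rw [hb2]; ring
    rw [this]; omega
  rw [hD] at h2
  have h1 := h1.symm
  have h2 := h2.symm
  have hDo : (bb ^ 2 + 1) % 2 = 1 := by
    have : bb ^ 2 + 1 = 2 * (8 * ρ ^ 2) + 1 := by rw [hbb]; ring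
    omega
  have hpar := par h2 (by omega) hDo
  have hp1 : (p - 1) / 4 = p / 4 := by omega
  have e8 : b / 8 = ρ := by omega
  rw [e8, hp1, hb2]
  have z4 : (4 : ZMod 4) = 0 := by decide
  rcases hpar with ⟨hx1, hy1⟩ | ⟨hx1, hy1⟩
  · -- `x` odd
    have hx1 := hx.odd hx1
    rcases (by omega : y % 4 = 0 ∨ y % 4 = 2) with h | h
    · obtain ⟨y4, hy4⟩ : ∃ y4, y = 4 * y4 := ⟨y / 4, by omega⟩
      have hxy : x * y = 4 * (x * y4) := by rw [hy4]; ring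
      refine ⟨fun _ => ?_, fun h3 => absurd ⟨_, hxy⟩ h3⟩
      obtain ⟨q1, q2, q3, -⟩ := caseA (κ := 1) h1 h2 hc hx1 h hy (Or.inl rfl) rfl (by omega)
      refine ⟨by omega, E00 hp4 h1 h2 rfl hx.ne hy.ne q2 (q3 rfl) ?_⟩
      have e1 : y / 4 = y4 := by omega
      have e2 : x * y / 4 = x * y4 := by omega
      rw [e1, e2, hy4]
      push_cast
      rw [cast1 hx1]
      linear_combination (-(2 * ρ * y4 : ZMod 4)) * z4
    · obtain ⟨y2, hy2⟩ : ∃ y2, y = 2 * y2 := ⟨y / 2, by omega⟩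
      have hn : ¬ 4 ∣ x * y := by
        rintro ⟨k, hk⟩
        obtain ⟨j, hj⟩ : ∃ j, x = 2 * j + 1 := ⟨x / 2, by omega⟩
        have : x * y = 2 * (j * y) + y := by rw [hj]; ring
        have h5 : x * y = 4 * (j * y2) + y := by rw [this]; nth_rewrite 1 [hy2]; ring
        omega
      refine ⟨fun h3 => absurd h3 hn, fun _ => ?_⟩
      obtain ⟨q1, q2⟩ := caseC1 h1 h2 hc hd hx1 h hy rfl (by omega)
      refine E10 hp4 h1 h2 rfl hx.ne hy.ne q1 q2 ?_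
      have e1 : bb / 2 = 2 * ρ := by omega
      rw [e1, hy2]
      push_cast
      linear_combination ((ρ : ZMod 4) - (ρ - 1) * y2) * z4
  · -- `x` even
    have hy1 := hy.odd hy1
    rcases (by omega : x % 4 = 0 ∨ x % 4 = 2) with h | h
    · obtain ⟨x4, hx4⟩ : ∃ x4, x = 4 * x4 := ⟨x / 4, by omega⟩
      have hxy : x * y = 4 * (x4 * y) := by rw [hx4]; ring
      refine ⟨fun _ => ?_, fun h3 => absurd ⟨_, hxy⟩ h3⟩
      obtain ⟨q1, q2, q3⟩ := caseD1 h1 h2 hc hd hx h hy1 rfl hbb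
      exact ⟨by omega, E00 hp4 h1 h2 rfl hx.ne hy.ne q2 q3 rfl⟩
    · have hn : ¬ 4 ∣ x * y := by
        rintro ⟨k, hk⟩
        obtain ⟨j, hj⟩ : ∃ j, y = 2 * j + 1 := ⟨y / 2, by omega⟩
        obtain ⟨x2, hx2⟩ : ∃ x2, x = 2 * x2 := ⟨x / 2, by omega⟩
        have h5 : x * y = 4 * (x2 * j) + x := by rw [hj]; nth_rewrite 1 [hx2]; rw [hx2]; ring
        omega
      refine ⟨fun h3 => absurd h3 hn, fun _ => ?_⟩
      obtain ⟨q1, q2⟩ := caseD2 h1 h2 hc hd hx h hy1 rfl hbb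
      exact E10 hp4 h1 h2 rfl hx.ne hy.ne q1 q2 rfl

end Pool.Agent.Results.MP_953685_nt.LucasQuarter
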